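import Pool.Agent.Y206.Q.Fin
import Pool.Agent.Y471.QG.Segre
import Pool.Agent.Y397.QG.One

/-!
# Special planes of geproci sets, and geproci sets on smooth quadrics

Every nondegenerate `(a, b)`-geproci set with more than four points has through each of its points
a plane that contains at least `a + b - 1` points of the set, three of them collinear. On a smooth
quadric these planes are tangent planes, which forces the set to be a grid.
-/

set_option autoImplicit false
open MvPolynomial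
open scoped LinearAlgebra.Projectivization

namespace Pool.Agent.Results.MP_9828eb_ag.SpecialPlanes

/-- `Z` is not contained in a plane. -/
def Nondegenerate (Z : Finset (ℙ ℂ (Fin 4 → ℂ))) : Prop := (⨆ z ∈ Z, z.submodule) = ⊤

/-- For a general point `p` the union of the lines joining `p` to the points of `Z` is a complete
intersection: its ideal is generated by two polynomials. -/
def Geproci (Z : Finset (ℙ ℂ (Fin 4 → ℂ))) : Prop :=
  ∃ h : MvPolynomial (Fin 4) ℂ, h ≠ 0 ∧ ∀ p : Fin 4 → ℂ, p ≠ 0 → eval p h ≠ 0 →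
    ∃ F G : MvPolynomial (Fin 4) ℂ, ∀ f : MvPolynomial (Fin 4) ℂ,
      f ∈ Ideal.span {F, G} ↔ ∀ z ∈ Z, ∀ s t : ℂ, eval (s • p + t • z.rep) f = 0

/-- The linear projection from `p` to the plane `x_3 = 0`, in coordinates. -/
def projection (p x : Fin 4 → ℂ) : Fin 3 → ℂ :=
  fun i => p (Fin.last 3) * x i.castSucc - x (Fin.last 3) * p i.castSucc

/-- `Z` is `(a, b)`-geproci: for a general point `p` the ideal of the projection of `Z` from `p` to
a plane is generated by a form of degree `a` and a form of degree `b`. -/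
def GeprociType (Z : Finset (ℙ ℂ (Fin 4 → ℂ))) (a b : ℕ) : Prop :=
  ∃ h : MvPolynomial (Fin 4) ℂ, h ≠ 0 ∧ ∀ p : Fin 4 → ℂ, eval p h ≠ 0 →
    ∃ F G : MvPolynomial (Fin 3) ℂ, F.IsHomogeneous a ∧ G.IsHomogeneous b ∧
      ∀ f : MvPolynomial (Fin 3) ℂ, f ∈ Ideal.span {F, G} ↔
        ∀ z ∈ Z, ∀ t : ℂ, eval (t • projection p z.rep) f = 0

/-- `Z` lies on a smooth quadric surface. -/
def OnSmoothQuadric (Z : Finset (ℙ ℂ (Fin 4 → ℂ))) : Prop :=
  ∃ q : MvPolynomial (Fin 4) ℂ, q.IsHomogeneous 2 ∧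
    (∀ v : Fin 4 → ℂ, (∀ i : Fin 4, eval v (pderiv i q) = 0) → v = 0) ∧
    ∀ z ∈ Z, eval z.rep q = 0

/-- `Z` is the set of the points of intersection of `a` pairwise skew lines `L i` with `b` pairwise
skew lines `M j`, each `L i` meeting each `M j`. -/
def IsGrid (Z : Finset (ℙ ℂ (Fin 4 → ℂ))) : Prop :=
  ∃ a b : ℕ, ∃ L : Fin a → Submodule ℂ (Fin 4 → ℂ), ∃ M : Fin b → Submodule ℂ (Fin 4 → ℂ),
    (∀ i, Module.finrank ℂ (L i) = 2) ∧ (∀ j, Module.finrank ℂ (M j) = 2) ∧
    (∀ i i', i ≠ i' → L i ⊓ L i' = ⊥) ∧ (∀ j j', j ≠ j' → M j ⊓ M j' = ⊥) ∧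
    (∀ i j, Module.finrank ℂ (↥(L i ⊓ M j)) = 1) ∧
    ∀ z : ℙ ℂ (Fin 4 → ℂ), z ∈ Z ↔ ∃ i j, z.submodule = L i ⊓ M j

/-- The plane `H` is special for the `(a, b)`-geproci set `Z`: it contains at least `a + b - 1`
points of `Z`, and three of them are collinear. -/
def SpecialPlane (Z : Finset (ℙ ℂ (Fin 4 → ℂ))) (a b : ℕ) (H : Submodule ℂ (Fin 4 → ℂ)) : Prop :=
  Module.finrank ℂ H = 3 ∧ a + b ≤ Nat.card {z // z ∈ Z ∧ z.submodule ≤ H} + 1 ∧
    ∃ x ∈ Z, ∃ y ∈ Z, ∃ z ∈ Z, x ≠ y ∧ x ≠ z ∧ y ≠ z ∧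
      x.submodule ≤ H ∧ y.submodule ≤ H ∧ z.submodule ≤ H ∧
      x.submodule ≤ y.submodule ⊔ z.submodule

open Pool.Agent.Y206.Q in
lemma pair_indep (k l : ℙ ℂ (Fin 4 → ℂ)) (hkl : k ≠ l) :
    LinearIndependent ℂ ![k.rep, l.rep] := by
  rw [LinearIndependent.pair_iff' k.rep_nonzero]
  intro a ha
  apply hkl
  rw [← k.mk_rep, ← l.mk_rep, Projectivization.mk_eq_mk_iff']
  have ha0 : a ≠ 0 := by
    rintro rfl
    rw [zero_smul] at ha
    exact l.rep_nonzero ha.symm
  refine ⟨a⁻¹, ?_⟩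
  rw [← ha, smul_smul, inv_mul_cancel₀ ha0, one_smul]

/-- The linear form with coefficients `ξ`. -/
def form (ξ : Fin 4 → ℂ) : (Fin 4 → ℂ) →ₗ[ℂ] ℂ where
  toFun x := ξ ⬝ᵥ x
  map_add' x y := dotProduct_add ξ x y
  map_smul' c x := by simp [dotProduct_smul]

lemma finrank_plane {ξ : Fin 4 → ℂ} (hξ : ξ ≠ 0) :
    Module.finrank ℂ (LinearMap.ker (form ξ)) = 3 := by
  have h1 := LinearMap.finrank_range_add_finrank_ker (form ξ)
  have h2 : LinearMap.range (form ξ) = ⊤ := by
    obtain ⟨i, hi⟩ := Function.ne_iff.1 hξ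
    apply LinearMap.range_eq_top.2
    apply LinearMap.surjective
    intro h
    apply hi
    have h3 : form ξ (Pi.single i 1) = 0 := by rw [h]; rfl
    simpa [form] using h3
  rw [h2, finrank_top, Module.finrank_self, Module.finrank_fin_fun] at h1
  omega

open Pool.Agent.Y206.Q Pool.Agent.Helper947.Geo Pool.Agent.Y206.G Pool.Agent.Y689.QG in
/-- **Main result.** Let `Z` be a nondegenerate geproci set of `ℙ³`. It is `(a, b)`-geproci for some
`2 ≤ a ≤ b` with `|Z| = a b`. If it has more than four points, then through each of its points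
passes a special plane. If it lies on a smooth quadric, it is a grid. -/
theorem result : ∀ Z : Finset (ℙ ℂ (Fin 4 → ℂ)), Nondegenerate Z → Geproci Z →
    (OnSmoothQuadric Z → IsGrid Z) ∧
    ∃ a b : ℕ, 2 ≤ a ∧ a ≤ b ∧ Z.card = a * b ∧ GeprociType Z a b ∧
      (4 < Z.card → ∀ z ∈ Z, ∃ H : Submodule ℂ (Fin 4 → ℂ), z.submodule ≤ H ∧
        SpecialPlane Z a b H) := by
  classical
  intro Z hspan hgen
  refine ⟨fun hq => final Pool.Agent.Y471.QG.segre Pool.Agent.Y397.QG.one Z hspan hq hgen, ?_⟩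
  have hpair : ∀ k l : Z, k ≠ l → LinearIndependent ℂ ![k.1.rep, l.1.rep] := fun k l hkl =>
    pair_indep k.1 l.1 fun h => hkl (Subtype.ext h)
  have hsp : Submodule.span ℂ (Set.range fun z : Z => z.1.rep) = ⊤ := by
    rw [eq_top_iff, ← hspan]
    refine iSup_le fun z => iSup_le fun hz => ?_
    rw [sub_le_iff]
    exact Submodule.subset_span ⟨⟨z, hz⟩, rfl⟩
  obtain ⟨h, hh, hp⟩ := hgen
  obtain ⟨a, b, ha, hab, hK, hG⟩ := exists_type h_card (fun z : Z => z.1.rep) hsp hpair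
    (fun z => z.1.rep_nonzero) (h * X (Fin.last 3)) (mul_ne_zero hh (X_ne_zero _)) (by
      intro P hP
      rw [map_mul, eval_X] at hP
      have hl := right_ne_zero_of_mul hP
      have hP0 : P ≠ 0 := by
        rintro rfl
        exact hl rfl
      obtain ⟨F, G, hFG⟩ := hp P hP0 (left_ne_zero_of_mul hP)
      obtain ⟨F', G', hI⟩ := Pool.Agent.Y469.QG.cone Z (fun z => z.1.rep) P hl F G (by
        intro f
        rw [hFG f]
        exact ⟨fun h1 k => h1 k.1 k.2, fun h1 z hz => h1 ⟨z, hz⟩⟩)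
      obtain ⟨a, b, F'', G'', h1, h2, h3⟩ := Pool.Agent.Y31.QG.hom 3 F' G' (van_homog hI)
      exact ⟨a, b, F'', G'', h1, h2, by rw [h3]; exact hI⟩)
  have hcard : Z.card = a * b := by rw [← hK, Fintype.card_coe]
  refine ⟨a, b, ha, hab, hcard, ?_, ?_⟩
  · obtain ⟨φ, hφ, h1⟩ := hG
    refine ⟨φ, hφ, fun p hp' => ?_⟩
    obtain ⟨F, G, hF, hG', hI⟩ := h1 p hp'
    refine ⟨F, G, hF, hG', fun f => ?_⟩
    rw [hI f]
    exact ⟨fun h2 z hz t => h2 ⟨z, hz⟩ t, fun h2 k t => h2 k.1 k.2 t⟩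
  · intro h4 z₀ hz₀
    have hab5 : 5 ≤ a + b := by
      by_contra hcon
      have ha2 : a = 2 := by omega
      have hb2 : b = 2 := by omega
      subst ha2
      subst hb2
      omega
    obtain ⟨ξ, W, hξ, hk₀, hW, hWc, i, hi, j, hj, k, hk, hij, hik, hjk, hdep⟩ :=
      gep_special (fun z : Z => z.1.rep) hsp hpair (fun z => z.1.rep_nonzero) a b hG hab5
        ⟨z₀, hz₀⟩
    have hmem : ∀ x ∈ W, x.1.submodule ≤ LinearMap.ker (form ξ) := by
      intro x hx
      rw [sub_le_iff, LinearMap.mem_ker]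
      exact hW x hx
    refine ⟨LinearMap.ker (form ξ), hmem _ hk₀, finrank_plane hξ, ?_, ?_⟩
    · have h5 : W.card ≤ Nat.card {z // z ∈ Z ∧ z.submodule ≤ LinearMap.ker (form ξ)} := by
        have hfin : Finite {z // z ∈ Z ∧ z.submodule ≤ LinearMap.ker (form ξ)} :=
          Set.Finite.subset Z.finite_toSet fun z hz => hz.1
        let g : W → {z // z ∈ Z ∧ z.submodule ≤ LinearMap.ker (form ξ)} := fun x =>
          ⟨x.1.1, x.1.2, hmem x.1 x.2⟩
        have hg : Function.Injective g := by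
          intro x y hxy
          have h6 : x.1.1 = y.1.1 := congrArg (fun u => u.1) hxy
          exact Subtype.ext (Subtype.ext h6)
        have h7 := Nat.card_le_card_of_injective g hg
        rwa [Nat.card_eq_fintype_card, Fintype.card_coe] at h7
      omega
    · have hne : ∀ x y : Z, x ≠ y → x.1 ≠ y.1 := fun x y hxy h => hxy (Subtype.ext h)
      refine ⟨i.1, i.2, j.1, j.2, k.1, k.2, hne _ _ hij, hne _ _ hik, hne _ _ hjk,
        hmem _ hi, hmem _ hj, hmem _ hk, ?_⟩
      rw [sub_le_iff, Projectivization.submodule_eq, Projectivization.submodule_eq,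
        ← Submodule.span_union, Set.singleton_union]
      by_contra hcon
      apply hdep
      have h8 := hpair j k hjk
      have h9 : LinearIndependent ℂ
          (Fin.cons i.1.rep ![j.1.rep, k.1.rep] : Fin 3 → Fin 4 → ℂ) := by
        refine linearIndependent_finCons.2 ⟨h8, ?_⟩
        simpa [Matrix.range_cons, Matrix.range_empty, Set.pair_comm] using hcon
      exact h9

end Pool.Agent.Results.MP_9828eb_ag.SpecialPlanes
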